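import Mathlib
import Pool.Agent.Q199.Mink
set_option autoImplicit false

/-! # MP_446ff5_lc, Q1: timelike relatedness is existential-universally definable from lightlike
relatedness over Euclidean ordered fields, in every dimension `n ≥ 3` (positive answer).

`mu x y` is the Minkowski form on `F^n` (time coordinate: index `0`), `lamLang` is the first-order
language with one binary relation symbol, `lamStructure F n` interprets it on `F^n` as
`μ(x,y) = 0 ∧ x ≠ y`, and `IsExistsForall` says that a formula is a block of existential
quantifiers followed by a block of universal quantifiers followed by a quantifier-free formula.

The formula has eleven existential quantifiers and one universal one. On the null line through `x`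
and the point `w` of it that is lightlike related to `y`, the point `x' = 2w - x` satisfies
`μ(x',y) = -μ(x,y)`, and spacelike relatedness of `x'` and `y` has an existential-universal
definition. That `w` is the midpoint of `x` and `x'` is certified by a configuration of null lines:
two points `C`, `C'` which are not lightlike related to any point of the line (a universal
condition: they lie in its null hyperplane), points `A`, `A'` with `A λ x`, `A' λ x'`, and two null
lines through `w`, one meeting `AC` and `A'C'`, the other one meeting `AC'` and `A'C`. -/

namespace Pool.Agent.Results.MP_446ff5_lc.ExistsForall

open FirstOrder FirstOrder.Language Pool.Agent.Q199.Mink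

universe u

/-- One existential-universal formula in the language with one binary relation symbol defines
timelike relatedness from lightlike relatedness in every dimension `n ≥ 3` over every Euclidean
ordered field. -/
theorem result : ∃ φ : lamLang.Formula (Fin 2),
    IsExistsForall (φ : lamLang.BoundedFormula (Fin 2) 0) ∧
    ∀ n : ℕ, 3 ≤ n → ∀ (F : Type u) [Field F] [LinearOrder F] [IsStrictOrderedRing F],
      (∀ a : F, 0 ≤ a → ∃ b : F, b * b = a) → ∀ x y : Fin n → F,
        (letI := lamStructure F n; φ.Realize ![x, y]) ↔ 0 < mu x y :=
  main

end Pool.Agent.Results.MP_446ff5_lc.ExistsForall
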